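import Pool.Agent.CSP.D4
import Pool.Agent.CSP.D5

/-! # Centrally symmetric simplicial polytopes without centrally symmetric 4-cycles: dimensions 4, 5

The definitions `IsCsSimplicialPolytope`, `IsEdge`, `NoCsFourCycle`, `VertexNumbers` and `minVertices` are
in `Pool.Agent.CSP.Poly`. -/

set_option autoImplicit false

namespace Pool.Agent.Results.MP_e05709_co.FourAndFive

open Pool.Agent.CSP

/-- For `d = 4` and `d = 5` there is a centrally symmetric simplicial `d`-polytope without centrally
symmetric 4-cycle which has exactly `d (d + 1) + 2` vertices, that is 22 and 32. -/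
theorem result (d : ℕ) (hd : d = 4 ∨ d = 5) :
    d * (d + 1) + 2 ∈ VertexNumbers d ∧ minVertices d ≤ d * (d + 1) + 2 := by
  have h : d * (d + 1) + 2 ∈ VertexNumbers d := by
    rcases hd with rfl | rfl
    · exact main D4.checks
    · exact main D5.checks
  exact ⟨h, Nat.sInf_le h⟩

end Pool.Agent.Results.MP_e05709_co.FourAndFive
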