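import Pool.Agent.CSP.D6

/-! # Centrally symmetric simplicial polytopes without centrally symmetric 4-cycles: dimension 6

The definitions `IsCsSimplicialPolytope`, `IsEdge`, `NoCsFourCycle`, `VertexNumbers` and `minVertices` are
in `Pool.Agent.CSP.Poly`. -/

set_option autoImplicit false

namespace Pool.Agent.Results.MP_e05709_co.Six

open Pool.Agent.CSP

/-- There is a centrally symmetric simplicial 6-polytope without centrally symmetric 4-cycle which has
exactly 48 vertices. -/
theorem result : 48 ∈ VertexNumbers 6 ∧ minVertices 6 ≤ 48 :=
  ⟨main D6.checks, Nat.sInf_le (main D6.checks)⟩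

end Pool.Agent.Results.MP_e05709_co.Six
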