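import Mathlib
import Pool.Agent.CsPoly.Defs
import Pool.Agent.CsPoly.Bound

/-! The fewest vertices of a centrally symmetric simplicial `d`-polytope without (induced)
centrally symmetric 4-cycle: at most `2 ^ (4 √d)`. -/

namespace Pool.Agent.Results.MP_e05709_co.SquareRootExponent

open Pool.Agent.CsPoly

/-- For every `d ≥ 1` there are centrally symmetric simplicial `d`-polytopes without centrally
symmetric 4-cycle, and the least number `m(d)` of vertices of such a polytope is at most
`2 ^ (4 √d)`. -/
theorem result : ∀ d : ℕ, 1 ≤ d →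
    (vertexNumbers d).Nonempty ∧ (minVertices d : ℝ) ≤ (2 : ℝ) ^ (4 * √(d : ℝ)) := by
  intro d hd
  obtain ⟨P, h1, h2, h3⟩ := main_bound d hd
  have hmem : (P.extremePoints ℝ).ncard ∈ vertexNumbers d := ⟨P, h1, h2, rfl⟩
  refine ⟨⟨_, hmem⟩, le_trans ?_ h3⟩
  exact_mod_cast Nat.sInf_le hmem

end Pool.Agent.Results.MP_e05709_co.SquareRootExponent
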