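import Pool.Agent.URP.Grp
import Pool.Agent.URP.Vert
import Pool.Agent.URP.Upper

/-!
# MP_e05709_co / SymmetricPolytopes: a lower bound for polytopes with an elementary abelian symmetry group, and its sharpness

`V` is the vertex set of a centrally symmetric `d`-polytope `P = conv V` in `ℝ^d`.  If the linear
symmetries of `P` contain a group `(ℤ/2)^m` (for instance the `2^d` sign changes of the coordinates,
`m = d`) and `P` is simplicial without centrally symmetric 4-cycles, or more generally (`P` need not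
be simplicial) no vertex lies in a common proper face with `v` and in a common proper face with `-v`,
then `P` has at least `2 ^ ((1 + √(4 m - 3)) / 2) ≥ 2 ^ √m` vertices.  For `m = d` the exponent is right
up to the constant factor: for every `d` there are unconditional (invariant under all sign changes of
coordinates) simplicial `d`-polytopes without centrally symmetric 4-cycles with at most `2 ^ (10 √d)`
vertices.

Proof of the lower bound: joint eigenfunctionals project `V` to an unconditional set in `ℝ^m` (`URP/Grp`);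
a Nash equilibrium (`URP/Nash`, from Brouwer's theorem `URP/Brou`) and sign flips show that its members
have up to `k` non-zero coordinates with `m ≤ k^2 - k + 1` (`URP/Comb`), and such a member gives `2^k`
members.  Proof of the upper bound: sums of unconditional compatible pairs (`URP/UPair`, after `CS4/Pair`),
closed under restriction to subsets of the coordinates; a small perturbation with scale factors that
decrease with the size of the support, generic otherwise, is unconditional and simplicial (`URP/Herm`).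
-/

namespace Pool.Agent.Results.MP_e05709_co.SymmetricPolytopes

open Finset Pool.Agent.URP

/-- the lower bound -/
theorem lower {d m : ℕ} (hm : 0 < m) (V : Finset (Fin d → ℝ))
    (hspan : Submodule.span ℝ (V : Set (Fin d → ℝ)) = ⊤) (hneg : ∀ v ∈ V, -v ∈ V)
    (G : Subgroup ((Fin d → ℝ) ≃ₗ[ℝ] (Fin d → ℝ))) (hG : ∀ g ∈ G, g * g = 1) (hcard : Nat.card G = 2 ^ m)
    (hGV : ∀ g ∈ G, ∀ v ∈ V, g v ∈ V)
    (hV : (∀ u ∈ V, ∀ v ∈ V, ¬(InFace V u v ∧ InFace V u (-v))) ∨
      (Simplicial V ∧ ∀ u ∈ V, ∀ v ∈ V, ¬(Edge V u v ∧ Edge V u (-v)))) :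
    (2:ℝ) ^ ((1 + Real.sqrt (4 * m - 3)) / 2) ≤ V.card := by
  classical
  -- the second alternative implies the first one
  have hgood : ∀ u ∈ V, ∀ v ∈ V, ¬(InFace V u v ∧ InFace V u (-v)) := by
    rcases hV with h | ⟨hs, h⟩
    · exact h
    · rintro u hu v hv ⟨h1, h2⟩
      have hne1 : u ≠ v := by
        rintro rfl
        obtain ⟨S, ⟨f, c, hc, _, rfl⟩, h3, h4⟩ := h2
        have := h4.2
        rw [map_neg, h3.2] at this
        linarith
      have hne2 : u ≠ -v := by
        rintro rfl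
        obtain ⟨S, ⟨f, c, hc, _, rfl⟩, h3, h4⟩ := h1
        have := h3.2
        rw [map_neg, h4.2] at this
        linarith
      exact h u hu v hv ⟨edge_of_inFace hs hne1 h1, edge_of_inFace hs hne2 h2⟩
  have hfin : Finite G := Nat.finite_of_card_ne_zero (by rw [hcard]; positivity)
  have hfin' : (G : Set ((Fin d → ℝ) ≃ₗ[ℝ] (Fin d → ℝ))).Finite := Set.toFinite _
  let G' : Finset ((Fin d → ℝ) ≃ₗ[ℝ] (Fin d → ℝ)) := hfin'.toFinset
  have hmem : ∀ g, g ∈ G' ↔ g ∈ G := fun g => by simp [G']
  have hcard' : G'.card = 2 ^ m := by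
    have h1 : (G : Set ((Fin d → ℝ) ≃ₗ[ℝ] (Fin d → ℝ))).ncard = 2 ^ m := by
      rw [← hcard, ← Nat.card_coe_set_eq]; rfl
    rw [← h1, Set.ncard_eq_toFinset_card _ hfin']
  have hVne : V.Nonempty := by
    rw [Finset.nonempty_iff_ne_empty]
    rintro rfl
    have hsub : Subsingleton (Fin d → ℝ) := by
      rw [Finset.coe_empty, Submodule.span_empty] at hspan
      exact (Submodule.subsingleton_iff ℝ).1 (subsingleton_of_bot_eq_top hspan)
    have h1 : ∀ g ∈ G', g = 1 := fun g _ => LinearEquiv.ext fun x => Subsingleton.elim _ _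
    have h2 : G'.card ≤ 1 := Finset.card_le_one.2 fun a ha b hb => by rw [h1 a ha, h1 b hb]
    rw [hcard'] at h2
    have := Nat.one_lt_two_pow hm.ne'
    omega
  obtain ⟨k, hk1, hk2, hk3⟩ := URP.main_card V hVne hspan G' (fun g hg => hG g ((hmem g).1 hg))
    (fun g hg h hh => (hmem _).2 (G.mul_mem ((hmem g).1 hg) ((hmem h).1 hh))) hcard'
    (fun g hg => hGV g ((hmem g).1 hg)) (by
      intro u hu v hv f g h1 h2 h3 h4 h5 h6
      have hfe : f v = f u := le_antisymm (h2 v hv) (h3 u hu)
      have hge : g (-v) = g u := le_antisymm (h5 _ (hneg v hv)) (h6 u hu)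
      exact hgood u hu v hv ⟨⟨_, ⟨f, f u, h1, h2, rfl⟩, ⟨hu, rfl⟩, ⟨hv, hfe⟩⟩,
        ⟨_, ⟨g, g u, h4, h5, rfl⟩, ⟨hu, rfl⟩, ⟨hneg v hv, hge⟩⟩⟩)
  exact URP.closed (hk1 hm) hk2 hk3

/-- **Sharp lower bound for symmetric polytopes.**  Let `V` be the vertex set of a centrally symmetric
`d`-polytope in `ℝ^d` (a finite spanning set with `V = -V`), invariant under a group `G` of linear maps
which is isomorphic to `(ℤ/2)^m`, `m ≥ 1`.  If no member of `V` lies in a common proper face with `v`
and in a common proper face with `-v`, or if the polytope is simplicial and no vertex is adjacent to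
both `v` and `-v`, then it has at least `2 ^ ((1 + √(4 m - 3)) / 2)` vertices.  On the other hand for
every `d ≥ 1` there is a simplicial `d`-polytope in `ℝ^d`, invariant under all sign changes of the
coordinates (`m = d`) and without centrally symmetric 4-cycles, with at most `2 ^ (10 √d)` vertices. -/
theorem result :
    (∀ d m : ℕ, 0 < m → ∀ V : Finset (Fin d → ℝ),
      Submodule.span ℝ (V : Set (Fin d → ℝ)) = ⊤ → (∀ v ∈ V, -v ∈ V) →
      ∀ G : Subgroup ((Fin d → ℝ) ≃ₗ[ℝ] (Fin d → ℝ)), (∀ g ∈ G, g * g = 1) → Nat.card G = 2 ^ m →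
      (∀ g ∈ G, ∀ v ∈ V, g v ∈ V) →
      ((∀ u ∈ V, ∀ v ∈ V, ¬(InFace V u v ∧ InFace V u (-v))) ∨
        (Simplicial V ∧ ∀ u ∈ V, ∀ v ∈ V, ¬(Edge V u v ∧ Edge V u (-v)))) →
      (2:ℝ) ^ ((1 + Real.sqrt (4 * m - 3)) / 2) ≤ V.card) ∧
    (∀ d : ℕ, 1 ≤ d → ∃ V : Finset (Fin d → ℝ),
      Submodule.span ℝ (V : Set (Fin d → ℝ)) = ⊤ ∧ (∀ v ∈ V, FaceSet V {v}) ∧
      (∀ v ∈ V, ∀ i, Function.update v i (-v i) ∈ V) ∧ Simplicial V ∧
      (∀ u ∈ V, ∀ v ∈ V, ¬(Edge V u v ∧ Edge V u (-v))) ∧
      (V.card : ℝ) ≤ 2 ^ (10 * Real.sqrt d)) := by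
  refine ⟨fun d m hm V hspan hneg G hG hcard hGV hV => lower hm V hspan hneg G hG hcard hGV hV,
    fun d hd => ?_⟩
  obtain ⟨X, h1, h2, h3, h4, h5⟩ := unc_upper d hd
  obtain ⟨Y, g1, g2, g3, g4, g5, g6⟩ := vert h1 (neg_mem h2) h2 h3 h4
  exact ⟨Y, g1, g2, g3, g4, g5, le_trans (by exact_mod_cast g6) h5⟩

end Pool.Agent.Results.MP_e05709_co.SymmetricPolytopes
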